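import Pool.Agent.Y830.VM.Orth
import Pool.Agent.Y830.VM.Count
import Pool.Agent.H510R2.Div
import Pool.Agent.Results.MP_35679e_nt.QuadraticFailure

/-!
# The extended main conjecture for `k = 2`: the exact exponent for every `s`

Stronger form of the earlier result `QuadraticFailure`, which had only the failure.  For `k = 2` the
bound holds with the loss `X ^ ε` for every `ε > max (0, s (3 - s) / 3)`, and it fails for every
`ε < s (3 - s) / 3` when `1 ≤ s < 3`.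
-/

set_option autoImplicit false

open MeasureTheory

namespace Pool.Agent.Results.MP_35679e_nt.ExactQuadraticExponent

open Pool.Agent.Y830.VM
open Pool.Agent.Results.MP_35679e_nt.QuadraticFailure (weyl ExtendedBound)

/-- The loss exponent `max (0, s (3 - s) / 3)`. -/
noncomputable def lossExponent (s : ℝ) : ℝ := max 0 (s * (3 - s) / 3)

lemma weyl_two (X : ℝ) (α : Fin 2 → ℝ) :
    weyl 2 X α = ∑ x ∈ Finset.Icc 1 ⌊X⌋₊, chr ![(x : ℤ), (x : ℤ) ^ 2] α := by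
  unfold weyl chr
  refine Finset.sum_congr rfl fun x _ => ?_
  rw [Fin.prod_univ_two, ← Complex.exp_add, Fin.sum_univ_two]
  congr 1
  simp
  ring

lemma weyl_one (X : ℝ) (α : Fin 1 → ℝ) :
    weyl 1 X α = ∑ x ∈ Finset.Icc 1 ⌊X⌋₊, chr (fun _ => (x : ℤ)) α := by
  unfold weyl chr
  refine Finset.sum_congr rfl fun x _ => ?_
  rw [Fin.prod_univ_one, Fin.sum_univ_one]
  congr 1
  simp
  ring

lemma weyl_cont (k : ℕ) (X : ℝ) : Continuous (weyl k X) := by
  unfold weyl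
  fun_prop

lemma norm_weyl_le (k : ℕ) {X : ℝ} (hX : 1 ≤ X) (α : Fin k → ℝ) : ‖weyl k X α‖ ≤ X := by
  unfold weyl
  refine (norm_sum_le _ _).trans ?_
  have h1 : ∀ x ∈ Finset.Icc 1 ⌊X⌋₊, ‖Complex.exp (2 * (Real.pi : ℂ) * Complex.I *
      ∑ j : Fin k, (α j : ℂ) * (x : ℂ) ^ ((j : ℕ) + 1))‖ = 1 := by
    intro x _
    have : 2 * (Real.pi : ℂ) * Complex.I * ∑ j : Fin k, (α j : ℂ) * (x : ℂ) ^ ((j : ℕ) + 1) =
        ((2 * Real.pi * ∑ j : Fin k, α j * (x : ℝ) ^ ((j : ℕ) + 1) : ℝ) : ℂ) * Complex.I := by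
      push_cast
      ring
    rw [this, Complex.norm_exp_ofReal_mul_I]
  rw [Finset.sum_congr rfl h1, Finset.sum_const, Nat.card_Icc, nsmul_eq_mul, mul_one]
  simp only [add_tsub_cancel_right]
  exact Nat.floor_le (by linarith)

/-- the sixth moment -/
lemma sixth (X : ℝ) (hX : 1 ≤ X) (T : ℝ) (hT1 : 1 ≤ T)
    (hT : ∀ n : ℕ, 1 ≤ n → n ≤ ⌊X⌋₊ ^ 2 → (n.divisors.card : ℝ) ≤ T) :
    ∫ α in cube 2, ‖weyl 2 X α‖ ^ 6 ≤ 6 * T * X ^ 3 := by
  have h0 : ∀ α : Fin 2 → ℝ, ‖weyl 2 X α‖ ^ 6 =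
      ‖∑ t ∈ trip ⌊X⌋₊, chr (vv t) α‖ ^ 2 := by
    intro α
    have h1 : ∑ t ∈ trip ⌊X⌋₊, chr (vv t) α =
        weyl 2 X α * (weyl 2 X α * (starRingEnd ℂ) (weyl 2 X α)) := by
      rw [weyl_two, map_sum, Finset.sum_mul_sum, Finset.sum_mul_sum]
      unfold trip
      rw [Finset.sum_product]
      refine Finset.sum_congr rfl fun x _ => ?_
      rw [Finset.sum_product]
      refine Finset.sum_congr rfl fun y _ => ?_
      rw [Finset.mul_sum]
      refine Finset.sum_congr rfl fun z _ => ?_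
      rw [← chr_neg, ← chr_add, ← chr_add]
      congr 1
      unfold vv
      ext j
      fin_cases j
      · simp; ring
      · simp; ring
    rw [h1, norm_mul, norm_mul, RCLike.norm_conj]
    ring
  simp_rw [h0]
  rw [parseval]
  refine (count ⌊X⌋₊ T hT1 hT).trans ?_
  have h2 : (⌊X⌋₊ : ℝ) ≤ X := Nat.floor_le (by linarith)
  have h3 : (0 : ℝ) ≤ ⌊X⌋₊ := Nat.cast_nonneg _
  gcongr

lemma second (X : ℝ) (hX : 1 ≤ X) : ∫ α in cube 1, ‖weyl 1 X α‖ ^ 2 ≤ X := by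
  simp_rw [weyl_one]
  rw [parseval]
  have h1 : ((Finset.Icc 1 ⌊X⌋₊ ×ˢ Finset.Icc 1 ⌊X⌋₊).filter
      (fun p : ℕ × ℕ => (fun _ : Fin 1 => (p.1 : ℤ)) = (fun _ : Fin 1 => (p.2 : ℤ)))).card ≤
      (Finset.Icc 1 ⌊X⌋₊).card := by
    apply Finset.card_le_card_of_injOn (fun p => p.1)
    · intro p hp
      rw [Finset.mem_coe, Finset.mem_filter, Finset.mem_product] at hp
      exact hp.1.1
    · intro p hp q hq hpq
      rw [Finset.mem_coe, Finset.mem_filter] at hp hq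
      have h2 : (p.1 : ℤ) = p.2 := congrFun hp.2 0
      have h3 : (q.1 : ℤ) = q.2 := congrFun hq.2 0
      have h4 : p.1 = q.1 := hpq
      ext
      · exact h4
      · have : (p.2 : ℤ) = q.2 := by rw [← h2, ← h3, h4]
        exact_mod_cast this
  rw [Nat.card_Icc, add_tsub_cancel_right] at h1
  have h2 : (⌊X⌋₊ : ℝ) ≤ X := Nat.floor_le (by linarith)
  refine le_trans ?_ h2
  exact_mod_cast h1

lemma int_mono {k : ℕ} {X : ℝ} {B : Set (Fin k → ℝ)} (hB : B ⊆ cube k) {m : ℕ} :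
    ∫ α in B, ‖weyl k X α‖ ^ m ≤ ∫ α in cube k, ‖weyl k X α‖ ^ m := by
  apply setIntegral_mono_set
  · exact integrable_cube ((weyl_cont k X).norm.pow m)
  · exact Filter.Eventually.of_forall fun α => by positivity
  · exact Filter.Eventually.of_forall fun α hα => hB hα

lemma vol_fin {k : ℕ} {B : Set (Fin k → ℝ)} (hB : B ⊆ cube k) : volume B ≠ ⊤ := by
  have h1 : volume B ≤ volume (cube k) := measure_mono hB
  rw [volume_cube] at h1
  exact ne_top_of_le_ne_top ENNReal.one_ne_top h1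

lemma divisor_T (δ : ℝ) (hδ : 0 < δ) : ∃ D : ℝ, 1 ≤ D ∧ ∀ X : ℝ, 1 ≤ X → ∀ n : ℕ, 1 ≤ n →
    n ≤ ⌊X⌋₊ ^ 2 → (n.divisors.card : ℝ) ≤ D * X ^ δ := by
  obtain ⟨C, hC0, hC⟩ := Pool.Agent.H510R2.divisor_bound (δ / 2) (by positivity)
  refine ⟨max 1 C, le_max_left _ _, ?_⟩
  intro X hX n hn1 hn2
  have h1 : (n : ℝ) ≤ X ^ 2 := by
    have h2 : (⌊X⌋₊ : ℝ) ≤ X := Nat.floor_le (by linarith)
    have h3 : (n : ℝ) ≤ (⌊X⌋₊ : ℝ) ^ 2 := by exact_mod_cast hn2
    exact h3.trans (pow_le_pow_left₀ (Nat.cast_nonneg _) h2 2)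
  have h4 : (n : ℝ) ^ (δ / 2) ≤ X ^ δ := by
    calc (n : ℝ) ^ (δ / 2) ≤ (X ^ 2) ^ (δ / 2) :=
          Real.rpow_le_rpow (Nat.cast_nonneg _) h1 (by positivity)
      _ = X ^ δ := by
          rw [← Real.rpow_natCast, ← Real.rpow_mul (by linarith)]
          congr 1
          push_cast
          ring
  calc (n.divisors.card : ℝ) ≤ C * (n : ℝ) ^ (δ / 2) := hC n hn1
    _ ≤ max 1 C * X ^ δ := mul_le_mul (le_max_right _ _) h4 (by positivity) (by positivity)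

lemma split_aux {a l s : ℝ} (ha : 0 ≤ a) (hl : 0 < l) (hs0 : 0 ≤ s) (hs : s ≤ 3) :
    a ^ (2 * s) ≤ l ^ (2 * s) + l ^ (2 * s - 6) * a ^ 6 := by
  rcases le_or_gt a l with h | h
  · have h1 : a ^ (2 * s) ≤ l ^ (2 * s) := Real.rpow_le_rpow ha h (by linarith)
    have h2 : 0 ≤ l ^ (2 * s - 6) * a ^ 6 := by positivity
    linarith
  · have ha0 : 0 < a := hl.trans h
    have h1 : a ^ (2 * s) = a ^ (2 * s - 6) * a ^ 6 := by
      rw [← Real.rpow_natCast, ← Real.rpow_add ha0]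
      congr 1
      push_cast
      ring
    have h2 : a ^ (2 * s - 6) ≤ l ^ (2 * s - 6) :=
      Real.rpow_le_rpow_of_nonpos hl h.le (by linarith)
    have h3 : 0 ≤ l ^ (2 * s) := by positivity
    rw [h1]
    have := mul_le_mul_of_nonneg_right h2 (show 0 ≤ a ^ 6 by positivity)
    linarith

/-- the bound for `s ≤ 3` -/
lemma upper_small (s : ℝ) (hs1 : 0 ≤ s) (hs3 : s ≤ 3) (ε : ℝ) (hε : s * (3 - s) / 3 < ε) :
    ExtendedBound 2 s ε := by
  set E : ℝ := s * (3 - s) / 3 with hE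
  obtain ⟨D, hD1, hD⟩ := divisor_T (ε - E) (by linarith)
  refine ⟨6 * D, ?_⟩
  intro X hX B hBm hB
  have hX0 : 0 < X := by linarith
  have hB' : B ⊆ cube 2 := hB
  set l : ℝ := X ^ (1 - s / 6) with hl
  have hl0 : 0 < l := by positivity
  have hT1 : 1 ≤ D * X ^ (ε - E) := by
    have : 1 ≤ X ^ (ε - E) := Real.one_le_rpow hX (by linarith)
    nlinarith
  have h6 := sixth X hX (D * X ^ (ε - E)) hT1 (fun n h1 h2 => hD X hX n h1 h2)
  have h6' : ∫ α in B, ‖weyl 2 X α‖ ^ 6 ≤ 6 * (D * X ^ (ε - E)) * X ^ 3 :=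
    (int_mono hB').trans h6
  have hi6 : IntegrableOn (fun α => ‖weyl 2 X α‖ ^ 6) B :=
    (integrable_cube ((weyl_cont 2 X).norm.pow 6)).mono_set hB'
  have hc : IntegrableOn (fun _ : Fin 2 → ℝ => l ^ (2 * s)) B :=
    integrableOn_const (vol_fin hB')
  have hi : IntegrableOn (fun α => ‖weyl 2 X α‖ ^ (2 * s)) B :=
    (integrable_cube ((weyl_cont 2 X).norm.rpow_const
      fun _ => Or.inr (by linarith))).mono_set hB'
  have h7 : ∫ α in B, ‖weyl 2 X α‖ ^ (2 * s) ≤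
      ∫ α in B, (l ^ (2 * s) + l ^ (2 * s - 6) * ‖weyl 2 X α‖ ^ 6) := by
    apply integral_mono hi (hc.add (hi6.const_mul _))
    intro α
    exact split_aux (norm_nonneg _) hl0 hs1 hs3
  rw [integral_add hc (hi6.const_mul _), integral_const_mul, setIntegral_const, smul_eq_mul] at h7
  have hv : volume.real B = (volume B).toReal := rfl
  rw [hv] at h7
  set V : ℝ := (volume B).toReal with hV
  have hV0 : 0 ≤ V := ENNReal.toReal_nonneg
  have e1 : l ^ (2 * s) = X ^ (s + E) := by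
    rw [hl, ← Real.rpow_mul hX0.le]
    congr 1
    rw [hE]; ring
  have e2 : l ^ (2 * s - 6) * (X ^ (ε - E) * X ^ 3) = X ^ ε * X ^ (2 * s - 3) := by
    rw [hl, ← Real.rpow_mul hX0.le, ← Real.rpow_natCast, ← Real.rpow_add hX0,
      ← Real.rpow_add hX0, ← Real.rpow_add hX0]
    congr 1
    rw [hE]; push_cast; ring
  have e3 : X ^ (s + E) ≤ X ^ ε * X ^ s := by
    rw [← Real.rpow_add hX0]
    exact Real.rpow_le_rpow_of_exponent_le hX (by linarith)
  have h8 : l ^ (2 * s - 6) * ∫ α in B, ‖weyl 2 X α‖ ^ 6 ≤ 6 * D * (X ^ ε * X ^ (2 * s - 3)) := by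
    calc l ^ (2 * s - 6) * ∫ α in B, ‖weyl 2 X α‖ ^ 6
        ≤ l ^ (2 * s - 6) * (6 * (D * X ^ (ε - E)) * X ^ 3) :=
          mul_le_mul_of_nonneg_left h6' (by positivity)
      _ = 6 * D * (l ^ (2 * s - 6) * (X ^ (ε - E) * X ^ 3)) := by ring
      _ = _ := by rw [e2]
  have h9 : V * l ^ (2 * s) ≤ 6 * D * (X ^ ε * (X ^ s * V)) := by
    rw [e1]
    calc V * X ^ (s + E) ≤ V * (X ^ ε * X ^ s) := mul_le_mul_of_nonneg_left e3 hV0
      _ = 1 * (X ^ ε * (X ^ s * V)) := by ring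
      _ ≤ 6 * D * (X ^ ε * (X ^ s * V)) := by
          apply mul_le_mul_of_nonneg_right _ (by positivity)
          linarith
  have e4 : (2 * s - ((2 : ℕ) : ℝ) * (((2 : ℕ) : ℝ) + 1) / 2) = 2 * s - 3 := by
    push_cast; ring
  rw [e4]
  calc ∫ α in B, ‖weyl 2 X α‖ ^ (2 * s) ≤ V * l ^ (2 * s) +
        l ^ (2 * s - 6) * ∫ α in B, ‖weyl 2 X α‖ ^ 6 := h7
    _ ≤ 6 * D * (X ^ ε * (X ^ s * V)) + 6 * D * (X ^ ε * X ^ (2 * s - 3)) := add_le_add h9 h8
    _ = 6 * D * X ^ ε * (X ^ s * V + X ^ (2 * s - 3)) := by ring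

lemma upper_large (s : ℝ) (hs3 : 3 ≤ s) (ε : ℝ) (hε : 0 < ε) : ExtendedBound 2 s ε := by
  obtain ⟨D, hD1, hD⟩ := divisor_T ε hε
  refine ⟨6 * D, ?_⟩
  intro X hX B hBm hB
  have hX0 : 0 < X := by linarith
  have hB' : B ⊆ cube 2 := hB
  have hT1 : 1 ≤ D * X ^ ε := by
    have : 1 ≤ X ^ ε := Real.one_le_rpow hX hε.le
    nlinarith
  have h6 := sixth X hX (D * X ^ ε) hT1 (fun n h1 h2 => hD X hX n h1 h2)
  have h6' : ∫ α in B, ‖weyl 2 X α‖ ^ 6 ≤ 6 * (D * X ^ ε) * X ^ 3 :=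
    (int_mono hB').trans h6
  have hi6 : IntegrableOn (fun α => ‖weyl 2 X α‖ ^ 6) B :=
    (integrable_cube ((weyl_cont 2 X).norm.pow 6)).mono_set hB'
  have hi : IntegrableOn (fun α => ‖weyl 2 X α‖ ^ (2 * s)) B :=
    (integrable_cube ((weyl_cont 2 X).norm.rpow_const
      fun _ => Or.inr (by linarith))).mono_set hB'
  have h7 : ∫ α in B, ‖weyl 2 X α‖ ^ (2 * s) ≤
      ∫ α in B, X ^ (2 * s - 6) * ‖weyl 2 X α‖ ^ 6 := by
    apply integral_mono hi (hi6.const_mul _)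
    intro α
    have h0 := norm_weyl_le 2 hX α
    have h1 : ‖weyl 2 X α‖ ^ (2 * s) = ‖weyl 2 X α‖ ^ (2 * s - 6) * ‖weyl 2 X α‖ ^ 6 := by
      rcases eq_or_lt_of_le (norm_nonneg (weyl 2 X α)) with h | h
      · rw [← h, Real.zero_rpow (by linarith)]; simp
      · rw [← Real.rpow_natCast, ← Real.rpow_add h]
        congr 1
        push_cast
        ring
    show ‖weyl 2 X α‖ ^ (2 * s) ≤ X ^ (2 * s - 6) * ‖weyl 2 X α‖ ^ 6
    rw [h1]
    apply mul_le_mul_of_nonneg_right _ (by positivity)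
    exact Real.rpow_le_rpow (norm_nonneg _) h0 (by linarith)
  rw [integral_const_mul] at h7
  set V : ℝ := (volume B).toReal with hV
  have hV0 : 0 ≤ V := ENNReal.toReal_nonneg
  have e4 : (2 * s - ((2 : ℕ) : ℝ) * (((2 : ℕ) : ℝ) + 1) / 2) = 2 * s - 3 := by
    push_cast; ring
  rw [e4]
  have e2 : X ^ (2 * s - 6) * X ^ 3 = X ^ (2 * s - 3) := by
    rw [← Real.rpow_natCast, ← Real.rpow_add hX0]
    congr 1
    push_cast; ring
  calc ∫ α in B, ‖weyl 2 X α‖ ^ (2 * s) ≤ X ^ (2 * s - 6) * ∫ α in B, ‖weyl 2 X α‖ ^ 6 := h7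
    _ ≤ X ^ (2 * s - 6) * (6 * (D * X ^ ε) * X ^ 3) :=
        mul_le_mul_of_nonneg_left h6' (by positivity)
    _ = 6 * D * X ^ ε * (X ^ (2 * s - 6) * X ^ 3) := by ring
    _ = 6 * D * X ^ ε * (0 + X ^ (2 * s - 3)) := by rw [e2, zero_add]
    _ ≤ 6 * D * X ^ ε * (X ^ s * V + X ^ (2 * s - 3)) := by
        have : 0 ≤ X ^ s * V := by positivity
        gcongr

lemma upper_one (s : ℝ) (hs : 1 ≤ s) (ε : ℝ) (hε : 0 ≤ ε) : ExtendedBound 1 s ε := by
  refine ⟨1, ?_⟩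
  intro X hX B hBm hB
  have hX0 : 0 < X := by linarith
  have hB' : B ⊆ cube 1 := hB
  have h2' : ∫ α in B, ‖weyl 1 X α‖ ^ 2 ≤ X := (int_mono hB').trans (second X hX)
  have hi2 : IntegrableOn (fun α => ‖weyl 1 X α‖ ^ 2) B :=
    (integrable_cube ((weyl_cont 1 X).norm.pow 2)).mono_set hB'
  have hi : IntegrableOn (fun α => ‖weyl 1 X α‖ ^ (2 * s)) B :=
    (integrable_cube ((weyl_cont 1 X).norm.rpow_const
      fun _ => Or.inr (by linarith))).mono_set hB'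
  have h7 : ∫ α in B, ‖weyl 1 X α‖ ^ (2 * s) ≤
      ∫ α in B, X ^ (2 * s - 2) * ‖weyl 1 X α‖ ^ 2 := by
    apply integral_mono hi (hi2.const_mul _)
    intro α
    have h0 := norm_weyl_le 1 hX α
    have h1 : ‖weyl 1 X α‖ ^ (2 * s) = ‖weyl 1 X α‖ ^ (2 * s - 2) * ‖weyl 1 X α‖ ^ 2 := by
      rcases eq_or_lt_of_le (norm_nonneg (weyl 1 X α)) with h | h
      · rw [← h, Real.zero_rpow (by linarith)]; simp
      · rw [← Real.rpow_natCast, ← Real.rpow_add h]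
        congr 1
        push_cast
        ring
    show ‖weyl 1 X α‖ ^ (2 * s) ≤ X ^ (2 * s - 2) * ‖weyl 1 X α‖ ^ 2
    rw [h1]
    apply mul_le_mul_of_nonneg_right _ (by positivity)
    exact Real.rpow_le_rpow (norm_nonneg _) h0 (by linarith)
  rw [integral_const_mul] at h7
  set V : ℝ := (volume B).toReal with hV
  have hV0 : 0 ≤ V := ENNReal.toReal_nonneg
  have e4 : (2 * s - ((1 : ℕ) : ℝ) * (((1 : ℕ) : ℝ) + 1) / 2) = 2 * s - 1 := by
    push_cast; ring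
  rw [e4]
  have e2 : X ^ (2 * s - 2) * X = X ^ (2 * s - 1) := by
    nth_rewrite 2 [← Real.rpow_one X]
    rw [← Real.rpow_add hX0]
    congr 1
    ring
  have hXe : 1 ≤ X ^ ε := Real.one_le_rpow hX hε
  calc ∫ α in B, ‖weyl 1 X α‖ ^ (2 * s) ≤ X ^ (2 * s - 2) * ∫ α in B, ‖weyl 1 X α‖ ^ 2 := h7
    _ ≤ X ^ (2 * s - 2) * X := mul_le_mul_of_nonneg_left h2' (by positivity)
    _ = X ^ (2 * s - 1) := e2
    _ ≤ X ^ s * V + X ^ (2 * s - 1) := by
        have : 0 ≤ X ^ s * V := by positivity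
        linarith
    _ ≤ 1 * X ^ ε * (X ^ s * V + X ^ (2 * s - 1)) := by
        rw [one_mul]
        have : 0 ≤ X ^ s * V + X ^ (2 * s - 1) := by positivity
        nlinarith

/-- **The exact range for `k = 2`.**
(1) For every real `s ≥ 0` and every `ε` larger than `max (0, s (3 - s) / 3)` the bound of the
extended main conjecture holds for `k = 2`, uniformly in all measurable sets.
(2) For `1 ≤ s < 3` and every `ε` smaller than this number it fails.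
(3) So for `s ≥ 1` the conjectured statement (all `ε > 0`) for `k = 2` is true exactly when
`s ≥ 3`: in the conjectured range `s ≥ 5/2` it is false for `5/2 ≤ s < 3` and true for `s ≥ 3`.
(4) For `k = 1` it is true for all `s ≥ 1`, even with `ε = 0`.
(5) In particular the extended main conjecture is false. -/
theorem result :
    (∀ s ε : ℝ, 0 ≤ s → lossExponent s < ε → ExtendedBound 2 s ε) ∧
    (∀ s ε : ℝ, 1 ≤ s → s < 3 → ε < lossExponent s → ¬ ExtendedBound 2 s ε) ∧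
    (∀ s : ℝ, 1 ≤ s → ((∀ ε : ℝ, 0 < ε → ExtendedBound 2 s ε) ↔ 3 ≤ s)) ∧
    (∀ s ε : ℝ, 1 ≤ s → 0 ≤ ε → ExtendedBound 1 s ε) ∧
    ¬ (∀ k : ℕ, 1 ≤ k → ∀ s : ℝ, (k : ℝ) * ((k : ℝ) + 1) / 4 + 1 ≤ s → ∀ ε : ℝ, 0 < ε →
      ExtendedBound k s ε) := by
  obtain ⟨hfail, hneg⟩ := Pool.Agent.Results.MP_35679e_nt.QuadraticFailure.result
  have hup : ∀ s ε : ℝ, 0 ≤ s → lossExponent s < ε → ExtendedBound 2 s ε := by
    intro s ε hs hε
    unfold lossExponent at hε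
    rcases le_or_gt s 3 with h3 | h3
    · exact upper_small s hs h3 ε (lt_of_le_of_lt (le_max_right _ _) hε)
    · exact upper_large s h3.le ε (lt_of_le_of_lt (le_max_left _ _) hε)
  have hpos : ∀ s : ℝ, 1 ≤ s → s < 3 → 0 < s * (3 - s) / 3 := by
    intro s h1 h3
    have : 0 < s * (3 - s) := mul_pos (by linarith) (by linarith)
    linarith
  refine ⟨hup, ?_, ?_, fun s ε hs hε => upper_one s hs ε hε, hneg⟩
  · intro s ε h1 h3 hε
    unfold lossExponent at hε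
    rw [max_eq_right (hpos s h1 h3).le] at hε
    exact hfail s ε h1 h3 hε
  · intro s hs
    constructor
    · intro H
      by_contra h3
      push Not at h3
      have h0 := hpos s hs h3
      exact hfail s (s * (3 - s) / 3 / 2) hs h3 (by linarith) (H _ (by linarith))
    · intro h3 ε hε
      exact upper_large s h3 ε hε

end Pool.Agent.Results.MP_35679e_nt.ExactQuadraticExponent
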